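import Pool.Agent.helper57.AD.LowerMain

/-!
# A lower bound for the largest average diameter

Setting of the frozen statement `S07135`. For all `n > d ≥ 1` there is a simple arrangement of `n`
hyperplanes in `ℝ^d` whose bounded cells have average diameter at least `d (n - d) / (n - 1)`.

The arrangement is the cyclic one: the points of `ℝ^d` are the monic polynomials of degree `d`, the
hyperplanes are `p(i) = 0`, `i = 0, …, n - 1`. A bounded cell consists of the polynomials with one root in
each of `d` of the `n - 1` gaps `(i, i + 1)`. The two vertices with all roots at the left ends, respectively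
the right ends, of the gaps have distance at least the number of runs of consecutive gaps (an edge
changes one root only), and the average number of runs of a `d`-subset of an `(n - 1)`-set is
`d (n - d) / (n - 1)`.
-/

set_option autoImplicit false

namespace Pool.Agent.Results.MP_0c3135_co.CyclicLowerBound

open scoped Classical in
/-- For `n > d ≥ 1` there is a simple arrangement of `n` hyperplanes in `ℝ^d` such that, in the notation
of the frozen statement `S07135`, `d (n - d)` times the number of bounded cells is at most `n - 1`
times the sum of their graph diameters. -/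
theorem result (d n : ℕ) (hd : 1 ≤ d) (hdn : d < n) :
    ∃ (a : Fin n → Fin d → ℝ) (b : Fin n → ℝ),
      (∀ s : Finset (Fin n), s.card = d →
        ∃! x : Fin d → ℝ, ∀ i ∈ s, ∑ j, a i j * x j = b i) ∧
      (∀ s : Finset (Fin n), s.card = d + 1 →
        ¬ ∃ x : Fin d → ℝ, ∀ i ∈ s, ∑ j, a i j * x j = b i) ∧
      ∀ C P : Finset (Fin n) → Set (Fin d → ℝ),
      (∀ S, C S = {x | ∀ i, (i ∈ S → b i < ∑ j, a i j * x j) ∧
                          (i ∉ S → ∑ j, a i j * x j < b i)}) →
      (∀ S, P S = {x | ∀ i, (i ∈ S → b i ≤ ∑ j, a i j * x j) ∧
                          (i ∉ S → ∑ j, a i j * x j ≤ b i)}) →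
      d * (n - d) * (Finset.univ.filter
          (fun S : Finset (Fin n) => (C S).Nonempty ∧ Bornology.IsBounded (C S))).card
      ≤ (n - 1) * ∑ S ∈ Finset.univ.filter
          (fun S : Finset (Fin n) => (C S).Nonempty ∧ Bornology.IsBounded (C S)),
        (SimpleGraph.fromRel
          (fun v w : Set.extremePoints ℝ (P S) =>
            IsExtreme ℝ (P S) (segment ℝ (v : Fin d → ℝ) (w : Fin d → ℝ)))).diam :=
  ⟨Pool.Agent.helper57.AD.ca n d, Pool.Agent.helper57.AD.cb n d,
    Pool.Agent.helper57.AD.c_h1 n d, Pool.Agent.helper57.AD.c_h2 n d,
    fun _ _ hC hP => Pool.Agent.helper57.AD.main_lower hd hdn hC hP⟩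

end Pool.Agent.Results.MP_0c3135_co.CyclicLowerBound
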