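import Pool.Agent.helper57.AD.Main

/-!
# The average diameter of the bounded cells, all dimensions

Setting of the frozen statement `S07135`. For every simple arrangement of `n > d ≥ 1` hyperplanes in
`ℝ^d` we have `d * (average diameter) + 2 ≤ 2 ^ d + d`, so that the average diameter is at most
`1 + (2 ^ d - 2) / d` (`1, 2, 3, 4.5` for `d = 1, 2, 3, 4`).

Idea of the proof. The bounded cells have at most `2 ^ d` vertices on average (`main_vertices`). Fix a vertex `s` (a set of `d` hyperplanes). The sign patterns of the unbounded
cells at `s` form a family `U` of subsets of `s`, and a family has at least as many members as there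
are sets `S` for which it contains a cube with the set `S` of free coordinates. If `s` is on an
unbounded cell of the arrangement induced on the intersection of the hyperplanes of `S`, then `U`
contains such a cube. So the number of bounded cells at `s` is at most the number of the `S ⊆ s` such
that all cells at `s` of the arrangement induced on the intersection of the hyperplanes of `S` are
bounded. For fixed `S` with `k < d` elements, the number of such `s` is at most `C(n-k-2, d-k)`: there
are `C(n-k-1, d-k)` bounded cells in the induced arrangement, down-shifting of the family of their sign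
vectors leads to a simplicial complex with as many faces which contains all the sets `s \ S`, and by the
theorem of Kruskal and Katona (Lovász form) such a complex has at most `C(n-k-2, d-k)` faces of size
`d - k`. This gives the bound `∑_k C(n,k) C(n-k-2,d-k) ≤ 2^d C(n-1,d)` for the number of pairs of a
bounded cell and a vertex of it. The graph of a simple `d`-polytope with `V` vertices is `d`-connected
(Balinski), so its diameter `δ` satisfies `d δ + 2 ≤ V + d`.
-/

set_option autoImplicit false

namespace Pool.Agent.Results.MP_0c3135_co.GeneralBound

open scoped Classical in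
/-- For every simple arrangement of `n > d ≥ 1` hyperplanes in `ℝ^d`, in the notation of the frozen
statement `S07135` and with `N` the number of bounded cells: `d` times the sum of the graph diameters of
the bounded cells plus `2 N` is at most `(2 ^ d + d) N`. -/
theorem result (d n : ℕ) (hd : 1 ≤ d) (hdn : d < n)
    (a : Fin n → Fin d → ℝ) (b : Fin n → ℝ)
    (h1 : ∀ s : Finset (Fin n), s.card = d →
        ∃! x : Fin d → ℝ, ∀ i ∈ s, ∑ j, a i j * x j = b i)
    (h2 : ∀ s : Finset (Fin n), s.card = d + 1 →
        ¬ ∃ x : Fin d → ℝ, ∀ i ∈ s, ∑ j, a i j * x j = b i)
    (C P : Finset (Fin n) → Set (Fin d → ℝ))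
    (hC : ∀ S, C S = {x | ∀ i, (i ∈ S → b i < ∑ j, a i j * x j) ∧
                          (i ∉ S → ∑ j, a i j * x j < b i)})
    (hP : ∀ S, P S = {x | ∀ i, (i ∈ S → b i ≤ ∑ j, a i j * x j) ∧
                          (i ∉ S → ∑ j, a i j * x j ≤ b i)}) :
    d * (∑ S ∈ Finset.univ.filter
          (fun S : Finset (Fin n) => (C S).Nonempty ∧ Bornology.IsBounded (C S)),
        (SimpleGraph.fromRel
          (fun v w : Set.extremePoints ℝ (P S) =>
            IsExtreme ℝ (P S) (segment ℝ (v : Fin d → ℝ) (w : Fin d → ℝ)))).diam) +
      2 * (Finset.univ.filter
          (fun S : Finset (Fin n) => (C S).Nonempty ∧ Bornology.IsBounded (C S))).card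
      ≤ (2 ^ d + d) * (Finset.univ.filter
          (fun S : Finset (Fin n) => (C S).Nonempty ∧ Bornology.IsBounded (C S))).card :=
  Pool.Agent.helper57.AD.main_diam h1 h2 hC hP hd hdn

end Pool.Agent.Results.MP_0c3135_co.GeneralBound
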