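import Pool.Agent.helper57.AD.Main

/-!
# The average diameter in terms of the excess over the Hirsch bound

Setting of the frozen statement `S07135`, all dimensions. For every simple arrangement of
`n > d ≥ 1` hyperplanes in `ℝ^d` the sum of the diameters of the bounded cells is at most `d` times their
number plus the sum of the positive parts of `δ(C) - (f(C) - d)`, where `f(C)` is the number of
facets of the cell `C`. (The bounded cells have at most `2 d` facets on average: `main_facets`.)

In particular the bound `d` for the average diameter can fail only if bounded cells violate the Hirsch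
bound `δ ≤ f - d`.
-/

set_option autoImplicit false

namespace Pool.Agent.Results.MP_0c3135_co.HirschExcess

open scoped Classical in
/-- For every simple arrangement of `n > d ≥ 1` hyperplanes in `ℝ^d`, in the notation of the frozen
statement `S07135`: let `F S` be the set of the hyperplanes which contain a facet of the closed cell
`P S` (a point of `P S` which is on no other hyperplane). Then the sum of the diameters is at
most `d` times the number of bounded cells plus the sum of the numbers
`diam + d - #(F S)` (truncated subtraction), i.e. of the positive parts of the excess over the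
Hirsch bound. -/
theorem result (d n : ℕ) (hd : 1 ≤ d) (hdn : d < n)
    (a : Fin n → Fin d → ℝ) (b : Fin n → ℝ)
    (h1 : ∀ s : Finset (Fin n), s.card = d →
        ∃! x : Fin d → ℝ, ∀ i ∈ s, ∑ j, a i j * x j = b i)
    (h2 : ∀ s : Finset (Fin n), s.card = d + 1 →
        ¬ ∃ x : Fin d → ℝ, ∀ i ∈ s, ∑ j, a i j * x j = b i)
    (C P : Finset (Fin n) → Set (Fin d → ℝ))
    (hC : ∀ S, C S = {x | ∀ i, (i ∈ S → b i < ∑ j, a i j * x j) ∧
                          (i ∉ S → ∑ j, a i j * x j < b i)})
    (hP : ∀ S, P S = {x | ∀ i, (i ∈ S → b i ≤ ∑ j, a i j * x j) ∧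
                          (i ∉ S → ∑ j, a i j * x j ≤ b i)})
    (F : Finset (Fin n) → Finset (Fin n))
    (hF : ∀ S, F S = Finset.univ.filter (fun i : Fin n => ∃ x ∈ P S, ∑ j, a i j * x j = b i ∧
      ∀ k, k ≠ i → ∑ j, a k j * x j ≠ b k)) :
    (∑ S ∈ Finset.univ.filter
          (fun S : Finset (Fin n) => (C S).Nonempty ∧ Bornology.IsBounded (C S)),
        (SimpleGraph.fromRel
          (fun v w : Set.extremePoints ℝ (P S) =>
            IsExtreme ℝ (P S) (segment ℝ (v : Fin d → ℝ) (w : Fin d → ℝ)))).diam)
      ≤ d * (Finset.univ.filter
          (fun S : Finset (Fin n) => (C S).Nonempty ∧ Bornology.IsBounded (C S))).card +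
        ∑ S ∈ Finset.univ.filter
          (fun S : Finset (Fin n) => (C S).Nonempty ∧ Bornology.IsBounded (C S)),
        ((SimpleGraph.fromRel
          (fun v w : Set.extremePoints ℝ (P S) =>
            IsExtreme ℝ (P S) (segment ℝ (v : Fin d → ℝ) (w : Fin d → ℝ)))).diam + d -
          (F S).card) := by
  obtain rfl : F = fun S => Finset.univ.filter (fun i : Fin n => ∃ x ∈ P S,
      ∑ j, a i j * x j = b i ∧ ∀ k, k ≠ i → ∑ j, a k j * x j ≠ b k) := funext hF
  exact Pool.Agent.helper57.AD.main_excess h1 h2 hC hP hd hdn

end Pool.Agent.Results.MP_0c3135_co.HirschExcess
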