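import Pool.Agent.helper40.QP.Main
import Pool.Agent.helper40.QP.Real

/-!
# Average diameter of the bounded cells: a bound quasi-polynomial in `d` and uniform in `n`

Setting of the frozen statement `S07135`. For every simple arrangement of `n > d ≥ 1` hyperplanes in
`ℝ^d` the average diameter of the bounded cells is at most `5 d ^ ((log₂ d + 3) / 2)`.

Idea of the proof. Let `H 0 = 1`, `H (e + 1) = H e + 2 H (e / 2)` (rounded down). We prove the bound
`H (2 d)` and `H (2 d) ≤ 5 d ^ ((log₂ d + 3) / 2)`.

1. (`window`) Let `u` be a vertex of a simple polytope of dimension `m` and sort the vertices by their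
distance from `u`. If at most `m + e` facets have vertices in a window of consecutive layers, then the
window has at most `H e` layers. This is the induction of Kalai and Kleitman, organised by the excess
`e`: a shortest initial and a shortest final part of the window which both meet more than
`(m + e) / 2` facets have a facet in common, and the part between them is in this facet.

2. (`one_cell`) So every window with `L + 1` layers, `L = H (m - 1)`, meets at least `2 m` facets. A
facet `F` has vertices in an interval of at most `diam F + 1` layers. Counting the pairs of a window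
and a facet which it meets gives `2 m (diam P + 1) ≤ ∑_F (diam F + 1 + L) + 2 m L`.

3. (`TT_step`) Sum this over all bounded cells of the arrangements induced on all intersections of
`j` of the hyperplanes (`m = d - j`). A bounded cell of dimension `m - 1` is a facet of at most two bounded
cells of each of `j + 1` arrangements of dimension `m`, and the numbers of these bounded cells are
known. So the average diameter in dimension `m` exceeds the one in dimension `m - 1` essentially by at
most `2 L` (up to factors whose product is `n / (n - d) ≤ 2` for `n ≥ 2 d`; if `n < 2 d` then 1. applies to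
every cell).

Powers of the number of facets, as in the bound of Kalai and Kleitman for single polytopes, can not be
averaged in this way: their averages over the bounded cells are not bounded as `n` grows.
-/

set_option autoImplicit false

namespace Pool.Agent.Results.MP_0c3135_co.QuasiPolynomialBound

open scoped Classical in
/-- For every simple arrangement of `n > d ≥ 1` hyperplanes in `ℝ^d`, in the notation of the frozen
statement `S07135`: the sum of the graph diameters of the bounded cells is at most
`5 d ^ ((log₂ d + 3) / 2)` times the number of the bounded cells. -/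
theorem result (d n : ℕ) (hd : 1 ≤ d) (hdn : d < n)
    (a : Fin n → Fin d → ℝ) (b : Fin n → ℝ)
    (h1 : ∀ s : Finset (Fin n), s.card = d →
        ∃! x : Fin d → ℝ, ∀ i ∈ s, ∑ j, a i j * x j = b i)
    (h2 : ∀ s : Finset (Fin n), s.card = d + 1 →
        ¬ ∃ x : Fin d → ℝ, ∀ i ∈ s, ∑ j, a i j * x j = b i)
    (C P : Finset (Fin n) → Set (Fin d → ℝ))
    (hC : ∀ S, C S = {x | ∀ i, (i ∈ S → b i < ∑ j, a i j * x j) ∧
                          (i ∉ S → ∑ j, a i j * x j < b i)})
    (hP : ∀ S, P S = {x | ∀ i, (i ∈ S → b i ≤ ∑ j, a i j * x j) ∧
                          (i ∉ S → ∑ j, a i j * x j ≤ b i)}) :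
    ((∑ S ∈ Finset.univ.filter
          (fun S : Finset (Fin n) => (C S).Nonempty ∧ Bornology.IsBounded (C S)),
        (SimpleGraph.fromRel
          (fun v w : Set.extremePoints ℝ (P S) =>
            IsExtreme ℝ (P S) (segment ℝ (v : Fin d → ℝ) (w : Fin d → ℝ)))).diam : ℕ) : ℝ)
      ≤ 5 * (d : ℝ) ^ ((Real.logb 2 d + 3) / 2) * ((Finset.univ.filter
          (fun S : Finset (Fin n) => (C S).Nonempty ∧ Bornology.IsBounded (C S))).card : ℝ) := by
  obtain ⟨H, hH⟩ := Pool.Agent.helper40.QP.exists_isH
  have h3 := Pool.Agent.helper40.QP.main_qp h1 h2 hC hP hd hdn hH
  have h4 := hH.le_closed hd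
  refine le_trans (Nat.cast_le.2 h3) ?_
  rw [Nat.cast_mul]
  exact mul_le_mul_of_nonneg_right h4 (Nat.cast_nonneg _)

end Pool.Agent.Results.MP_0c3135_co.QuasiPolynomialBound
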